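import Pool.Agent.Helper68.ZF.Str
import Pool.Agent.Helper75.JE.S1E

/-! Package B for the Jensen threshold theorem: a zero-free half-plane gives `Est b` for some `b < 1/2`. -/

set_option autoImplicit false
set_option maxHeartbeats 1000000

open Complex Filter Topology Metric Set

namespace Pool.Agent.Helper68.ZF

open Pool.Agent.Helper75.Jen Pool.Agent.Helper75.JE

/-- the error terms are small -/
lemma small_err {A η : ℝ} (hA : 0 ≤ A) (hη : 0 < η) : ∃ τ0 : ℝ, Real.exp 1 ≤ τ0 ∧ ∀ τ : ℝ, τ0 ≤ τ →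
    A * qq τ ≤ η * Real.sqrt (Real.log τ) ∧ A * qq τ ^ 2 ≤ η * Real.log τ := by
  refine ⟨Real.exp (max 1 ((A / η) ^ 4)), Real.exp_le_exp.2 (le_max_left _ _), fun τ hτ => ?_⟩
  have hτ0 : 0 < τ := lt_of_lt_of_le (Real.exp_pos _) hτ
  have hL : max 1 ((A / η) ^ 4) ≤ Real.log τ := (Real.le_log_iff_exp_le hτ0).2 hτ
  have hL1 : 1 ≤ Real.log τ := (le_max_left _ _).trans hL
  have hq1 : 1 ≤ qq τ := Real.one_le_rpow hL1 (by norm_num)
  have hq4 := qq_four (τ := τ) (by linarith)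
  have hq2 := qq_sq (τ := τ) (by linarith)
  have hAq : A / η ≤ qq τ := by
    have h1 : (A / η) ^ 4 ≤ qq τ ^ 4 := by rw [hq4]; exact (le_max_right _ _).trans hL
    exact le_of_pow_le_pow_left₀ (by norm_num) (by linarith) h1
  rw [div_le_iff₀ hη] at hAq
  constructor
  · rw [← hq2]
    nlinarith
  · rw [← hq4]
    have : A * qq τ ^ 2 ≤ (qq τ * η) * qq τ ^ 2 := by gcongr
    have h2 : (qq τ * η) * qq τ ^ 2 ≤ (qq τ * η) * qq τ ^ 2 * qq τ :=
      le_mul_of_one_le_right (by positivity) hq1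
    nlinarith

theorem est_of_Ld {b0 K τ1 : ℝ} (H : Ld b0 K τ1) {b : ℝ} (hb : b0 < b) (hbh : b ≤ 1 / 2) : Est b := by
  obtain ⟨K2, τ2, hK2, hτ12, hstrip⟩ := H.strip
  intro R η hR hη
  have hK1 := H.K1
  have hb1 := H.b1
  obtain ⟨τ3, hτ3e, hτ3⟩ := small_err (A := 4 * K2 + K * (6 * R) + 3 * R ^ 2 + 2 * K + 2 * R)
    (by positivity) hη
  refine ⟨max (max τ3 (2 * τ2)) (max (30 * R) (6 * R ^ 2 / (b - b0))), fun τ hτ => ?_⟩
  have hτa : τ3 ≤ τ := (le_max_left _ _).trans ((le_max_left _ _).trans hτ)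
  have hτb : 2 * τ2 ≤ τ := (le_max_right _ _).trans ((le_max_left _ _).trans hτ)
  have hτc : 30 * R ≤ τ := (le_max_left _ _).trans ((le_max_right _ _).trans hτ)
  have hτd : 6 * R ^ 2 / (b - b0) ≤ τ := (le_max_right _ _).trans ((le_max_right _ _).trans hτ)
  have ht4 := H.t4
  have hτ11 : τ1 ≤ τ := by linarith
  have hτ0 : 0 < τ := by linarith
  have hτe : Real.exp 1 ≤ τ := hτ3e.trans hτa
  obtain ⟨he1, he2⟩ := hτ3 τ hτa
  have hq1 := one_le_qq hτe
  have hq12 : qq τ ≤ qq τ ^ 2 := by nlinarith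
  have hq2 : 1 ≤ qq τ ^ 2 := by nlinarith
  -- the errors
  have hE1 : 2 * (K * qq τ) + 2 * R ≤ η * Real.sqrt (Real.log τ) := by
    have : 0 ≤ (4 * K2 + K * (6 * R) + 3 * R ^ 2) * qq τ := by positivity
    nlinarith
  have hE2 : 4 * K2 * qq τ ^ 2 + K * qq τ * (6 * R) + 3 * R ^ 2 ≤ η * Real.log τ := by
    have h1 : K * qq τ * (6 * R) ≤ K * (6 * R) * qq τ ^ 2 := by
      have : K * qq τ * (6 * R) = K * (6 * R) * qq τ := by ring
      rw [this]; gcongr
    have h2 : 3 * R ^ 2 ≤ 3 * R ^ 2 * qq τ ^ 2 := le_mul_of_one_le_right (by positivity) hq2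
    have h3 : 0 ≤ (2 * K + 2 * R) * qq τ ^ 2 := by positivity
    nlinarith
  set L : ℝ := Real.log τ with hL
  have hL1 : 1 ≤ L := (Real.le_log_iff_exp_le hτ0).2 hτe
  have hL0 : 0 ≤ L / 2 := by linarith
  have hLτ : L / 2 ≤ τ / 2 := by
    have := Real.log_le_sub_one_of_pos hτ0
    linarith
  set a : ℂ := (b0 : ℂ) + τ * I with ha
  have hare : a.re = b0 := by simp [ha]
  have haim : a.im = τ := by simp [ha]
  have hb2 := H.b2
  have hane : fx a ≠ 0 := (H.ld τ hτ11 a (by rw [hare]) (by rw [hare]; linarith)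
    (by rw [haim, sub_self, abs_zero]; linarith)).1
  have hap : 0 < ‖fx a‖ := norm_pos_iff.2 hane
  have hM0 : 0 < ‖fx a‖ * Real.exp (-(L / 2 * b0)) := by positivity
  -- sizes to the right
  have hsz : ∀ w : ℂ, b0 ≤ w.re → w.re ≤ 3 * R → |w.im - τ| ≤ 3 * R → fx w ≠ 0 ∧
      ‖fx w‖ ≤ ‖fx a‖ * Real.exp (-(L / 2 * b0)) * Real.exp (L / 2 * w.re) *
        Real.exp (K * qq τ * (6 * R)) ∧
      ‖fx a‖ * Real.exp (-(L / 2 * b0)) * Real.exp (L / 2 * w.re) ≤
        Real.exp (K * qq τ * (6 * R)) * ‖fx w‖ := by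
    intro w h1 h2 h3
    have h4 : fx w ≠ 0 := (H.ld τ hτ11 w h1 (by linarith) (by linarith)).1
    have h5 := H.size hτ11 (w1 := w) (w2 := a) h1 (by linarith) (by linarith) (by rw [hare])
      (by rw [hare]; linarith) (by rw [haim, sub_self, abs_zero]; linarith)
    rw [hare] at h5
    have hdn : ‖w - a‖ ≤ 6 * R := by
      have h6 := norm_le_abs_re_add_abs_im (w - a)
      rw [sub_re, sub_im, hare, haim, abs_of_nonneg (by linarith : 0 ≤ w.re - b0)] at h6
      linarith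
    have hwp : 0 < ‖fx w‖ := norm_pos_iff.2 h4
    have hKq : K * qq τ * ‖w - a‖ ≤ K * qq τ * (6 * R) := by gcongr
    have h6 := abs_le.1 (h5.trans hKq)
    refine ⟨h4, ?_, ?_⟩
    · calc ‖fx w‖ = Real.exp (Real.log ‖fx w‖) := (Real.exp_log hwp).symm
        _ ≤ Real.exp (Real.log ‖fx a‖ + -(L / 2 * b0) + L / 2 * w.re + K * qq τ * (6 * R)) := by
            refine Real.exp_le_exp.2 ?_
            have := h6.2
            nlinarith
        _ = _ := by rw [Real.exp_add, Real.exp_add, Real.exp_add, Real.exp_log hap]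
    · calc ‖fx a‖ * Real.exp (-(L / 2 * b0)) * Real.exp (L / 2 * w.re)
          = Real.exp (Real.log ‖fx a‖ + -(L / 2 * b0) + L / 2 * w.re) := by
            rw [Real.exp_add, Real.exp_add, Real.exp_log hap]
        _ ≤ Real.exp (K * qq τ * (6 * R) + Real.log ‖fx w‖) := by
            refine Real.exp_le_exp.2 ?_
            have := h6.1
            nlinarith
        _ = _ := by rw [Real.exp_add, Real.exp_log hwp]
  -- upper bound everywhere
  have hup : ∀ w : ℂ, |w.re| ≤ 3 * R → |w.im - τ| ≤ 3 * R →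
      ‖fx w‖ ≤ Real.exp (4 * K2 * qq τ ^ 2) * (‖fx a‖ * Real.exp (-(L / 2 * b0)) *
        Real.exp (L / 2 * max |w.re| b0) * Real.exp (K * qq τ * (6 * R))) := by
    intro w h1 h2
    set w' : ℂ := ((max |w.re| b0 : ℝ) : ℂ) + w.im * I with hw'
    have hre' : w'.re = max |w.re| b0 := by simp [hw']
    have him' : w'.im = w.im := by simp [hw']
    have hone : 1 ≤ Real.exp (4 * K2 * qq τ ^ 2) := Real.one_le_exp (by positivity)
    have h2' := abs_le.1 h2
    have h3 : ‖fx w‖ ≤ Real.exp (4 * K2 * qq τ ^ 2) * ‖fx w'‖ := by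
      rcases le_total |w.re| b0 with h4 | h4
      · have h5 := hstrip w.im (by linarith) w h4 rfl
        rw [hw', max_eq_right h4]
        refine h5.trans (mul_le_mul_of_nonneg_right (Real.exp_le_exp.2 ?_) (norm_nonneg _))
        have h6 := qq_near (τ := τ) (a := w.im) hτe (by linarith) (by linarith)
        have h7 : qq w.im ≤ 2 * qq τ := h6
        have h8 : 0 ≤ qq w.im := Real.rpow_nonneg (Real.log_nonneg (by linarith)) _
        have h9 : qq w.im ^ 2 ≤ (2 * qq τ) ^ 2 := by gcongr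
        nlinarith
      · have h5 : ‖fx w'‖ = ‖fx w‖ := by
          rw [hw', max_eq_left h4]
          rcases le_total 0 w.re with h6 | h6
          · rw [abs_of_nonneg h6, Complex.re_add_im]
          · rw [abs_of_nonpos h6]
            have e : (((-w.re : ℝ) : ℂ) + w.im * I) = -(starRingEnd ℂ w) := by
              apply Complex.ext <;> simp
            rw [e, fx_even, fx_conj, Complex.norm_conj]
        rw [h5]
        exact le_mul_of_one_le_left (norm_nonneg _) hone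
    refine h3.trans (mul_le_mul_of_nonneg_left ?_ (by linarith))
    have h4 := (hsz w' (by rw [hre']; exact le_max_right _ _) (by
      rw [hre']
      exact max_le h1 (by linarith)) (by rw [him']; exact h2)).2.1
    rwa [hre'] at h4
  refine ⟨‖fx a‖ * Real.exp (-(L / 2 * b0)), hM0, ?_, ?_⟩
  · intro ζ hζ
    obtain ⟨g1, g2, g3, g4, g5, g6⟩ := Pool.Agent.Helper82.JE.geo hR hτc hζ rfl
    set u : ℂ := ((-(τ ^ 2) : ℝ) : ℂ) + 2 * τ * ζ with hu
    have hPh : Ph τ ζ = fx (wf u) := FF_wf u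
    rw [hPh]
    refine (hup _ g4 g5).trans ?_
    have h1 : L / 2 * max |(wf u).re| b0 ≤ L / 2 * max |ζ.im| b + 3 * R ^ 2 := by
      have h2 : L / 2 * |(wf u).re - ζ.im| ≤ 3 * R ^ 2 := by
        calc L / 2 * |(wf u).re - ζ.im| ≤ τ / 2 * |(wf u).re - ζ.im| := by gcongr
          _ ≤ 3 * R ^ 2 := by nlinarith [sq_nonneg R]
      have h3 : max |(wf u).re| b0 ≤ max |ζ.im| b + |(wf u).re - ζ.im| := by
        refine max_le ?_ ?_
        · have h4 : |(wf u).re| ≤ |ζ.im| + |(wf u).re - ζ.im| := by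
            have := abs_add_le ζ.im ((wf u).re - ζ.im)
            rwa [add_sub_cancel] at this
          linarith [le_max_left |ζ.im| b]
        · have := le_max_right |ζ.im| b
          have := abs_nonneg ((wf u).re - ζ.im)
          linarith
      calc L / 2 * max |(wf u).re| b0 ≤ L / 2 * (max |ζ.im| b + |(wf u).re - ζ.im|) := by gcongr
        _ ≤ _ := by rw [mul_add]; linarith
    calc Real.exp (4 * K2 * qq τ ^ 2) * (‖fx a‖ * Real.exp (-(L / 2 * b0)) *
          Real.exp (L / 2 * max |(wf u).re| b0) * Real.exp (K * qq τ * (6 * R)))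
        = ‖fx a‖ * Real.exp (-(L / 2 * b0)) * Real.exp (4 * K2 * qq τ ^ 2 +
            L / 2 * max |(wf u).re| b0 + K * qq τ * (6 * R)) := by
          rw [Real.exp_add, Real.exp_add]; ring
      _ ≤ ‖fx a‖ * Real.exp (-(L / 2 * b0)) * Real.exp (η * L + L / 2 * max |ζ.im| b) := by
          refine mul_le_mul_of_nonneg_left (Real.exp_le_exp.2 ?_) hM0.le
          linarith
      _ = _ := by rw [Real.exp_add]; ring
  · intro ζ hζ him
    obtain ⟨g1, g2, g3, g4, g5, g6⟩ := Pool.Agent.Helper82.JE.geo hR hτc hζ rfl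
    set u : ℂ := ((-(τ ^ 2) : ℝ) : ℂ) + 2 * τ * ζ with hu
    set w : ℂ := wf u with hw
    have hPh : Ph τ ζ = fx w := FF_wf u
    have hwre : b0 ≤ w.re := by
      have h1 : |w.re - ζ.im| ≤ (b - b0) / 2 := by
        have h2 : 6 * R ^ 2 ≤ (b - b0) * τ := by
          rw [div_le_iff₀ (by linarith)] at hτd
          linarith
        have h3 : |w.re - ζ.im| * τ ≤ (b - b0) / 2 * τ := by linarith
        exact le_of_mul_le_mul_right h3 hτ0
      have := (abs_le.1 h1).1
      linarith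
    have hwre2 : w.re ≤ 3 * R := (le_abs_self _).trans g4
    obtain ⟨k1, -, k3⟩ := hsz w hwre hwre2 g5
    have k2 := (H.ld τ hτ11 w hwre (by linarith) (by linarith)).2
    have hw0 : w ≠ 0 := by
      intro h
      rw [h] at g2
      simp at g2
      linarith
    refine ⟨by rw [hPh]; exact k1, ?_, ?_⟩
    · have hd1 : HasDerivAt (fun ζ : ℂ => ((-(τ ^ 2) : ℝ) : ℂ) + 2 * τ * ζ) (2 * τ) ζ := by
        simpa using ((hasDerivAt_id ζ).const_mul (2 * (τ : ℂ))).const_add (((-(τ ^ 2) : ℝ) : ℂ))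
      have hd2 : HasDerivAt (fun ζ : ℂ => wf (((-(τ ^ 2) : ℝ) : ℂ) + 2 * τ * ζ))
          (1 / (2 * w) * (2 * τ)) ζ :=
        HasDerivAt.comp (h₂ := wf) (h := fun ζ : ℂ => ((-(τ ^ 2) : ℝ) : ℂ) + 2 * τ * ζ) ζ
          (wf_hasDeriv g1) hd1
      have hd3 : HasDerivAt (fun ζ : ℂ => fx (wf (((-(τ ^ 2) : ℝ) : ℂ) + 2 * τ * ζ)))
          (deriv fx w * (1 / (2 * w) * (2 * τ))) ζ :=
        HasDerivAt.comp (h₂ := fx) (h := fun ζ : ℂ => wf (((-(τ ^ 2) : ℝ) : ℂ) + 2 * τ * ζ)) ζ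
          (fx_diff w).hasDerivAt hd2
      have hfun : Ph τ = fun ζ : ℂ => fx (wf (((-(τ ^ 2) : ℝ) : ℂ) + 2 * τ * ζ)) := by
        funext z
        exact FF_wf _
      have e1 : logDeriv (Ph τ) ζ = logDeriv fx w * (τ / w) := by
        rw [logDeriv_apply, hfun, hd3.deriv, logDeriv_apply]
        simp only
        rw [← hu, ← hw]
        field_simp
      have hwn : 86 / 100 * τ ≤ ‖w‖ := g2.trans ((le_abs_self _).trans (abs_im_le_norm _))
      have hwn0 : 0 < ‖w‖ := norm_pos_iff.2 hw0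
      have e2 : ‖(τ : ℂ) / w‖ ≤ 2 := by
        rw [norm_div, Complex.norm_real, Real.norm_of_nonneg hτ0.le, div_le_iff₀ hwn0]
        linarith
      have e3 : ‖(τ : ℂ) / w + I‖ * τ ≤ 3 * R := by
        have h1 : (τ : ℂ) / w + I = I * (w - τ * I) / w := by
          field_simp
          linear_combination (τ : ℂ) * I_sq
        rw [h1, norm_div, norm_mul, norm_I, one_mul, div_mul_eq_mul_div, div_le_iff₀ hwn0]
        nlinarith [norm_nonneg (w - τ * I)]
      have e4 : ‖((L / 2 : ℝ) : ℂ) * ((τ : ℂ) / w + I)‖ ≤ 2 * R := by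
        rw [norm_mul, Complex.norm_real, Real.norm_of_nonneg hL0]
        calc L / 2 * ‖(τ : ℂ) / w + I‖ ≤ τ / 2 * ‖(τ : ℂ) / w + I‖ := by gcongr
          _ ≤ 2 * R := by nlinarith
      rw [e1]
      calc ‖logDeriv fx w * (τ / w) + ((L / 2 : ℝ) : ℂ) * I‖
          = ‖(logDeriv fx w - ((L / 2 : ℝ) : ℂ)) * (τ / w) +
              ((L / 2 : ℝ) : ℂ) * ((τ : ℂ) / w + I)‖ := by
            congr 1; ring
        _ ≤ (K * qq τ) * 2 + 2 * R := by
            refine (norm_add_le _ _).trans (add_le_add ?_ e4)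
            rw [norm_mul]
            exact mul_le_mul k2 e2 (norm_nonneg _) (by positivity)
        _ ≤ _ := by linarith
    · rw [hPh]
      have h2 : L / 2 * ζ.im ≤ L / 2 * w.re + 3 * R ^ 2 := by
        have h2 : L / 2 * |w.re - ζ.im| ≤ 3 * R ^ 2 := by
          calc L / 2 * |w.re - ζ.im| ≤ τ / 2 * |w.re - ζ.im| := by gcongr
            _ ≤ 3 * R ^ 2 := by nlinarith [sq_nonneg R]
        have h3 : ζ.im ≤ w.re + |w.re - ζ.im| := by
          have := neg_abs_le (w.re - ζ.im)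
          linarith
        calc L / 2 * ζ.im ≤ L / 2 * (w.re + |w.re - ζ.im|) := by gcongr
          _ ≤ _ := by rw [mul_add]; linarith
      calc ‖fx a‖ * Real.exp (-(L / 2 * b0)) * Real.exp (L / 2 * ζ.im)
          ≤ ‖fx a‖ * Real.exp (-(L / 2 * b0)) * Real.exp (L / 2 * w.re + 3 * R ^ 2) := by gcongr
        _ = (‖fx a‖ * Real.exp (-(L / 2 * b0)) * Real.exp (L / 2 * w.re)) *
              Real.exp (3 * R ^ 2) := by
            rw [Real.exp_add]; ring
        _ ≤ (Real.exp (K * qq τ * (6 * R)) * ‖fx w‖) * Real.exp (3 * R ^ 2) := by gcongr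
        _ = Real.exp (K * qq τ * (6 * R) + 3 * R ^ 2) * ‖fx w‖ := by rw [Real.exp_add]; ring
        _ ≤ Real.exp (η * L) * ‖fx w‖ := by
            refine mul_le_mul_of_nonneg_right (Real.exp_le_exp.2 ?_) (norm_nonneg _)
            have : 0 ≤ 4 * K2 * qq τ ^ 2 := by positivity
            linarith

/-- **Package B** -/
theorem est_zf {θ : ℝ} (hθ : θ < 1) (h : ∀ s : ℂ, θ < s.re → riemannZeta s ≠ 0) :
    ∃ b : ℝ, 1 / 4 ≤ b ∧ b < 1 / 2 ∧ Est b := by
  obtain ⟨b0, K, τ1, H⟩ := exists_Ld hθ h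
  have hb1 := H.b1
  have hb2 := H.b2
  exact ⟨(b0 + 1 / 2) / 2, by linarith, by linarith, est_of_Ld H (by linarith) (by linarith)⟩

end Pool.Agent.Helper68.ZF
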