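import Pool.Agent.Helper82.JE.Est
import Pool.Agent.Helper75.HD.Seg
import Pool.Graph.R_seed8.H370R2.Local

/-! The logarithmic derivative of zeta near the line `Re s = 1` if there is a zero-free half-plane. -/

set_option autoImplicit false
set_option maxHeartbeats 1000000

open Complex Filter Topology Metric Set
open scoped ComplexConjugate

namespace Pool.Agent.Helper68.ZF

open Pool.Agent.Helper75.Jen Pool.Agent.Helper75.HD

/-- The logarithmic derivative of zeta to the right of `1 - κ`. -/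
theorem ld_zf {θ : ℝ} (hθ : θ < 1) (h : ∀ s : ℂ, θ < s.re → riemannZeta s ≠ 0) :
    ∃ κ K t0 : ℝ, 0 < κ ∧ κ ≤ 1 / 8 ∧ θ < 1 - κ ∧ 1 ≤ K ∧ Real.exp 1 ≤ t0 ∧
      ∀ s : ℂ, 1 - κ ≤ s.re → t0 ≤ s.im →
        riemannZeta s ≠ 0 ∧ ‖logDeriv riemannZeta s‖ ≤ K * Real.log s.im ^ (1 / 4 : ℝ) := by
  set θ' : ℝ := max θ (1 / 2) with hθ'
  have hθ'1 : 1 / 2 ≤ θ' := le_max_right _ _
  have hθ'2 : θ ≤ θ' := le_max_left _ _
  have hθ'3 : θ' < 1 := max_lt hθ (by norm_num)
  set g : ℝ := 1 - θ' with hg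
  have hg0 : 0 < g := by rw [hg]; linarith
  have hg1 : g ≤ 1 / 2 := by rw [hg]; linarith
  set κ : ℝ := g / 20 with hκ
  have hκ0 : 0 < κ := by positivity
  obtain ⟨C0, hC01, hC0⟩ := Pool.Agent.Helper82.JE.zeta_right' hκ0
  set R : ℝ := 1 + κ + 9 / 10 * g with hR
  set r : ℝ := 1 + 17 / 20 * g with hr
  set r2 : ℝ := 1 + g / 10 with hr2
  have hRr1 : R - g / 20 - r = g / 20 := by rw [hR, hr, hκ]; ring
  have hRr : R - (R - g / 20) = g / 20 := by ring
  have hR2 : R ≤ 2 := by rw [hR, hκ]; linarith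
  have hr1 : 1 < r := by rw [hr]; linarith
  have hr0 : 0 < r := by linarith
  have hlr : 0 < Real.log r := Real.log_pos hr1
  have hr21 : 1 < r2 := by rw [hr2]; linarith
  have hr20 : 0 < r2 := by linarith
  have hpow : r2 ^ 4 ≤ r := by
    rw [hr2, hr]
    have h1 : (1 + g / 10) ^ 4 = 1 + 4 * (g / 10) + 6 * (g / 10) ^ 2 + 4 * (g / 10) ^ 3 +
        (g / 10) ^ 4 := by ring
    rw [h1]
    have h2 : (g / 10) ^ 2 ≤ g / 10 := by nlinarith
    have h3 : (g / 10) ^ 3 ≤ g / 10 * (1 / 20) := by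
      have : (g / 10) ^ 3 = (g / 10) ^ 2 * (g / 10) := by ring
      rw [this]
      nlinarith
    have h4 : (g / 10) ^ 4 ≤ g / 10 * (1 / 20) := by
      have : (g / 10) ^ 4 = (g / 10) ^ 3 * (g / 10) := by ring
      rw [this]
      nlinarith [pow_pos (show 0 < g / 10 by positivity) 3]
    have h5 : (g / 10) ^ 2 ≤ g / 10 * (1 / 20) := by nlinarith
    linarith
  have hlog4 : 4 * Real.log r2 ≤ Real.log r := by
    have := Real.log_le_log (by positivity) hpow
    rwa [Real.log_pow, Nat.cast_ofNat] at this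
  have hlr2 : 0 < Real.log r2 := Real.log_pos hr21
  -- constants
  set A : ℝ := Real.log (96 * C0) + 2 with hA
  have hA0 : 0 ≤ A := by
    have : 0 ≤ Real.log (96 * C0) := Real.log_nonneg (by linarith)
    linarith
  set CM : ℝ := 2 * (A + 1) * 2 / (g / 20) / (g / 20) with hCM
  have hCM0 : 0 ≤ CM := by positivity
  refine ⟨κ, C0 + r2 * (C0 + CM), Real.exp 1 + 4, hκ0, by rw [hκ]; linarith, ?_, ?_, by linarith, ?_⟩
  · rw [hκ]
    have : θ' < 1 - g / 20 := by rw [hg]; linarith
    linarith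
  · have : 0 ≤ r2 * (C0 + CM) := by positivity
    linarith
  intro s hs1 hs2
  set t : ℝ := s.im with ht
  have he1 : (2 : ℝ) ≤ Real.exp 1 := by
    have := Real.add_one_le_exp (1 : ℝ)
    linarith
  have ht4 : 4 ≤ t := by linarith
  have hte : Real.exp 1 ≤ t := by linarith
  have hl1 : 1 ≤ Real.log t := (Real.le_log_iff_exp_le (by linarith)).2 hte
  have hl0 : 0 < Real.log t := by linarith
  have hl4 : 1 ≤ Real.log t ^ (1 / 4 : ℝ) := Real.one_le_rpow hl1 (by norm_num)
  have hne : riemannZeta s ≠ 0 := h s (by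
    have : θ' < 1 - g / 20 := by rw [hg]; linarith
    linarith)
  refine ⟨hne, ?_⟩
  rcases le_total (1 + κ) s.re with hcase | hcase
  · calc ‖logDeriv riemannZeta s‖ ≤ C0 := (hC0 s hcase).2.1
      _ ≤ (C0 + r2 * (C0 + CM)) * 1 := by
        have : 0 ≤ r2 * (C0 + CM) := by positivity
        linarith
      _ ≤ _ := mul_le_mul_of_nonneg_left hl4 (by positivity)
  -- the disc
  set c : ℂ := ⟨2 + κ, t⟩ with hc
  have hcre : c.re = 2 + κ := rfl
  have hcim : c.im = t := rfl
  have hball : ∀ {ρ : ℝ} {z : ℂ}, z ∈ closedBall c ρ → 2 + κ - ρ ≤ z.re ∧ z.re ≤ 2 + κ + ρ ∧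
      t - ρ ≤ z.im ∧ z.im ≤ t + ρ := by
    intro ρ z hz
    rw [mem_closedBall, dist_eq_norm] at hz
    have h1 := abs_le.1 ((abs_re_le_norm (z - c)).trans hz)
    have h2 := abs_le.1 ((abs_im_le_norm (z - c)).trans hz)
    rw [sub_re, hcre] at h1
    rw [sub_im, hcim] at h2
    refine ⟨by linarith, by linarith, by linarith, by linarith⟩
  have hne1 : ∀ z ∈ closedBall c R, z ≠ 1 := by
    rintro z hz rfl
    have := (hball hz).2.2.1
    rw [one_im] at this
    linarith
  have hnz : ∀ z ∈ closedBall c R, riemannZeta z ≠ 0 := by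
    intro z hz
    refine h z ?_
    have h1 := (hball hz).1
    have h2 : 2 + κ - R = θ' + g / 10 := by rw [hR, hg]; ring
    rw [h2] at h1
    linarith
  have han : AnalyticOnNhd ℂ riemannZeta (closedBall c R) := by
    intro z hz
    have hopen : IsOpen {z : ℂ | z ≠ 1} := isOpen_ne
    have hd : DifferentiableOn ℂ riemannZeta {z : ℂ | z ≠ 1} := fun z hz =>
      (differentiableAt_riemannZeta hz).differentiableWithinAt
    exact (hd.analyticOnNhd hopen) z (hne1 z hz)
  obtain ⟨-, -, c3, c4⟩ := hC0 c (by rw [hcre]; linarith)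
  have hcpos : 0 < ‖riemannZeta c‖ := norm_pos_iff.2 (hnz c (mem_closedBall_self (by linarith)))
  have hbd : ∀ z ∈ closedBall c R, ‖riemannZeta z‖ ≤ Real.exp (A * Real.log t) * ‖riemannZeta c‖ := by
    intro z hz
    obtain ⟨z1, z2, z3, z4⟩ := hball hz
    have hz1 : 1 / 2 ≤ z.re := by
      have h2 : 2 + κ - R = θ' + g / 10 := by rw [hR, hg]; ring
      rw [h2] at z1
      linarith
    have hz2 : 1 / 2 ≤ ‖z - 1‖ := by
      refine le_trans ?_ ((le_abs_self _).trans (abs_im_le_norm _))
      rw [sub_im, one_im]; linarith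
    have h5 := Pool.Agent.H306R2.zeta_norm_le hz1 hz2
    have h6 : ‖z‖ + 1 ≤ 4 * t := by
      have a1 := norm_le_abs_re_add_abs_im z
      rw [abs_of_nonneg (by linarith : 0 ≤ z.re), abs_of_nonneg (by linarith : 0 ≤ z.im)] at a1
      have : κ ≤ 1 / 40 := by rw [hκ]; linarith
      linarith
    have h7 : Real.exp (A * Real.log t) ≥ 96 * C0 * t ^ 2 := by
      have e1 : A * Real.log t = Real.log (96 * C0) * Real.log t + 2 * Real.log t := by
        rw [hA]; ring
      rw [e1, Real.exp_add]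
      have e2 : Real.exp (2 * Real.log t) = t ^ 2 := by
        rw [← Real.log_rpow (by linarith), Real.exp_log (by positivity)]
        norm_cast
      rw [e2]
      have e3 : 96 * C0 ≤ Real.exp (Real.log (96 * C0) * Real.log t) := by
        calc 96 * C0 = Real.exp (Real.log (96 * C0)) := (Real.exp_log (by linarith)).symm
          _ ≤ _ := by
            refine Real.exp_le_exp.2 ?_
            have : 0 ≤ Real.log (96 * C0) := Real.log_nonneg (by linarith)
            nlinarith
      gcongr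
    calc ‖riemannZeta z‖ ≤ 6 * (‖z‖ + 1) ^ 2 := h5
      _ ≤ 6 * (4 * t) ^ 2 := by gcongr
      _ = 96 * t ^ 2 * 1 := by ring
      _ ≤ 96 * t ^ 2 * (C0 * ‖riemannZeta c‖) := by gcongr
      _ = 96 * C0 * t ^ 2 * ‖riemannZeta c‖ := by ring
      _ ≤ _ := by gcongr
  have hψM : ∀ z ∈ closedBall c r, ‖logDeriv riemannZeta z‖ ≤ CM * Real.log t := by
    intro z hz
    have h8 := H370.Loc.logDeriv_zero_free (g := riemannZeta) (c := c) (r := R)
      (r1 := R - g / 20) (r2 := r) (B := A * Real.log t) hr0 (by linarith) (by linarith)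
      (by positivity) han hnz hbd hz
    refine h8.trans ?_
    rw [hRr, hRr1, hCM]
    have e1 : A * Real.log t + 1 ≤ (A + 1) * Real.log t := by nlinarith
    have e4 : 2 * (A + 1) * 2 / (g / 20) / (g / 20) * Real.log t =
        2 * ((A + 1) * Real.log t) * 2 / (g / 20) / (g / 20) := by ring
    rw [e4]
    have e5 : 0 ≤ R - g / 20 := by linarith
    gcongr
    linarith
  have hψK : ∀ z ∈ closedBall c 1, ‖logDeriv riemannZeta z‖ ≤ C0 := by
    intro z hz
    have h1 := (hball hz).1
    exact (hC0 z (by linarith)).2.1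
  have hψd : DifferentiableOn ℂ (logDeriv riemannZeta) (closedBall c r) := by
    intro z hz
    have hz2 : z ∈ closedBall c R := closedBall_subset_closedBall (by linarith) hz
    exact ((han z hz2).deriv.div (han z hz2) (hnz z hz2)).differentiableAt.differentiableWithinAt
  set N : ℕ := ⌈Real.log (Real.log t) / Real.log r⌉₊ with hN
  have hNl : Real.log (Real.log t) ≤ N * Real.log r := by
    have := Nat.le_ceil (Real.log (Real.log t) / Real.log r)
    rwa [div_le_iff₀ hlr] at this
  have hll0 : 0 ≤ Real.log (Real.log t) := Real.log_nonneg hl1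
  have hNu : (N : ℝ) ≤ Real.log (Real.log t) / Real.log r + 1 :=
    (Nat.ceil_lt_add_one (div_nonneg hll0 hlr.le)).le
  have hrN : Real.log t ≤ r ^ N := by
    rw [← Real.exp_log hl0, ← Real.exp_log (pow_pos hr0 N), Real.log_pow]
    exact Real.exp_le_exp.2 hNl
  have hr2N : r2 ^ N ≤ r2 * Real.log t ^ (1 / 4 : ℝ) := by
    rw [← Real.exp_log (pow_pos hr20 N), Real.log_pow]
    calc Real.exp (N * Real.log r2)
        ≤ Real.exp (Real.log r2 + Real.log (Real.log t) * (1 / 4)) := by
          refine Real.exp_le_exp.2 ?_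
          have h1 : (N : ℝ) * Real.log r2 ≤ (Real.log (Real.log t) / Real.log r + 1) * Real.log r2 := by
            gcongr
          have h2 : Real.log (Real.log t) / Real.log r * Real.log r2 ≤
              Real.log (Real.log t) * (1 / 4) := by
            rw [div_mul_eq_mul_div, div_le_iff₀ hlr]
            nlinarith
          linarith
      _ = r2 * Real.log t ^ (1 / 4 : ℝ) := by
          rw [Real.exp_add, Real.exp_log hr20, Real.rpow_def_of_pos hl0]
  have hsc : s ∈ closedBall c r2 := by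
    rw [mem_closedBall, dist_eq_norm]
    have e1 : s - c = ((s.re - (2 + κ) : ℝ) : ℂ) := by
      apply Complex.ext
      · simp [hcre]
      · simp [hcim, ht]
    rw [e1, Complex.norm_real, Real.norm_eq_abs, abs_le]
    constructor
    · rw [hr2, hκ]; rw [hκ] at hs1; linarith
    · linarith
  have hcirc := circ3 (ψ := logDeriv riemannZeta) (c := c) (r := r) (r2 := r2)
    (K := C0) (M := CM * Real.log t) hr1 (by rw [hr, hr2]; linarith) hψd (by linarith)
    hψK hψM N hsc hr21.le
  calc ‖logDeriv riemannZeta s‖ ≤ r2 ^ N * max C0 (CM * Real.log t / r ^ N) := hcirc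
    _ ≤ (r2 * Real.log t ^ (1 / 4 : ℝ)) * (C0 + CM) := by
        gcongr
        refine max_le (by linarith) ?_
        rw [div_le_iff₀ (pow_pos hr0 N)]
        have : CM * Real.log t ≤ CM * r ^ N := by gcongr
        have h2 : 0 ≤ C0 * r ^ N := by positivity
        nlinarith
    _ = r2 * (C0 + CM) * Real.log t ^ (1 / 4 : ℝ) := by ring
    _ ≤ _ := by
        gcongr
        linarith

end Pool.Agent.Helper68.ZF
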