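import Pool.Agent.Helper68.ZF.Ld

/-! `fx` to the right of `1/2 - κ` and the convexity bound in the strip `|Re z| ≤ 1/2 - κ`. -/

set_option autoImplicit false
set_option maxHeartbeats 1000000

open Complex Filter Topology Metric Set Asymptotics
open scoped ComplexConjugate

namespace Pool.Agent.Helper68.ZF

open Pool.Agent.Helper75.Jen Pool.Agent.Helper75.HD Pool.Agent.Helper68.UL

theorem fx_ld_zf {θ : ℝ} (hθ : θ < 1) (h : ∀ s : ℂ, θ < s.re → riemannZeta s ≠ 0) :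
    ∃ κ K t1 : ℝ, 0 < κ ∧ κ ≤ 1 / 8 ∧ 1 ≤ K ∧ 4 ≤ t1 ∧ Real.exp 1 ≤ t1 ∧
      ∀ w : ℂ, t1 ≤ w.im → |w.re| ≤ w.im / 2 → 1 / 2 - κ ≤ w.re → fx w ≠ 0 ∧
        ‖logDeriv fx w - ((1 / 2 * Real.log w.im : ℝ) : ℂ)‖ ≤ K * Real.log w.im ^ (1 / 4 : ℝ) := by
  obtain ⟨κ, K, t0, hκ0, hκ1, hκθ, hK1, ht0, hld⟩ := ld_zf hθ h
  obtain ⟨C1, hC1, hG⟩ := logDeriv_Gx
  refine ⟨κ, C1 + K, t0 + 4, hκ0, hκ1, by linarith, ?_, by linarith, ?_⟩
  · have := Real.exp_pos 1
    linarith
  intro w h1 h2 h3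
  have he := Real.exp_pos 1
  obtain ⟨g1, g2, g3⟩ := hG w (by linarith) h2
  have hre : (1 / 2 + w : ℂ).re = 1 / 2 + w.re := by simp
  have him : (1 / 2 + w : ℂ).im = w.im := by simp
  obtain ⟨z1, z2⟩ := hld (1 / 2 + w) (by rw [hre]; linarith) (by rw [him]; linarith)
  rw [him] at z2
  have hne : (1 / 2 + w : ℂ) ≠ 1 := by
    intro h
    have := congrArg Complex.im h
    rw [him, one_im] at this
    linarith
  have hd : DifferentiableAt ℂ (fun z : ℂ => riemannZeta (1 / 2 + z)) w :=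
    DifferentiableAt.comp (g := riemannZeta) (f := fun z : ℂ => 1 / 2 + z) w
      (differentiableAt_riemannZeta hne) (by fun_prop)
  have hev : fx =ᶠ[𝓝 w] fun z => Gx z * riemannZeta (1 / 2 + z) := by
    have hopen : IsOpen {z : ℂ | 0 < z.re ∧ 0 < z.im} :=
      (isOpen_lt continuous_const Complex.continuous_re).inter
        (isOpen_lt continuous_const Complex.continuous_im)
    filter_upwards [hopen.mem_nhds ⟨by linarith, by linarith⟩] with z hz
    refine fx_eq (by linarith [hz.1]) ?_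
    rintro rfl
    have := hz.2
    norm_num at this
  constructor
  · rw [hev.self_of_nhds]
    exact mul_ne_zero g1 z1
  · have e1 : logDeriv fx w = logDeriv Gx w + logDeriv riemannZeta (1 / 2 + w) := by
      have e1 : logDeriv fx w = logDeriv (fun z => Gx z * riemannZeta (1 / 2 + z)) w := by
        rw [logDeriv_apply, logDeriv_apply, hev.deriv_eq, hev.self_of_nhds]
      rw [e1, logDeriv_mul w g1 z1 g2 hd]
      congr 1
      rw [logDeriv_apply, logDeriv_apply]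
      congr 1
      exact deriv_comp_const_add (f := riemannZeta) (1 / 2 : ℂ) w
    have hl4 : 1 ≤ Real.log w.im ^ (1 / 4 : ℝ) := by
      refine Real.one_le_rpow ?_ (by norm_num)
      rw [Real.le_log_iff_exp_le (by linarith)]
      linarith
    rw [e1]
    calc ‖logDeriv Gx w + logDeriv riemannZeta (1 / 2 + w) - ((1 / 2 * Real.log w.im : ℝ) : ℂ)‖
        = ‖(logDeriv Gx w - ((1 / 2 * Real.log w.im : ℝ) : ℂ)) +
            logDeriv riemannZeta (1 / 2 + w)‖ := by congr 1; ring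
      _ ≤ C1 + K * Real.log w.im ^ (1 / 4 : ℝ) := (norm_add_le _ _).trans (add_le_add g3 z2)
      _ ≤ C1 * Real.log w.im ^ (1 / 4 : ℝ) + K * Real.log w.im ^ (1 / 4 : ℝ) := by
          have : C1 * 1 ≤ C1 * Real.log w.im ^ (1 / 4 : ℝ) := by gcongr
          linarith
      _ = _ := by ring

/-- the fourth root of `log τ` -/
noncomputable def qq (τ : ℝ) : ℝ := Real.log τ ^ (1 / 4 : ℝ)

lemma qq_sq {τ : ℝ} (hτ : 0 ≤ Real.log τ) : qq τ ^ 2 = Real.sqrt (Real.log τ) := by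
  rw [qq, ← Real.rpow_natCast, ← Real.rpow_mul hτ, Real.sqrt_eq_rpow]
  norm_num

lemma qq_four {τ : ℝ} (hτ : 0 ≤ Real.log τ) : qq τ ^ 4 = Real.log τ := by
  have : qq τ ^ 4 = (qq τ ^ 2) ^ 2 := by ring
  rw [this, qq_sq hτ, Real.sq_sqrt hτ]

lemma one_le_qq {τ : ℝ} (hτ : Real.exp 1 ≤ τ) : 1 ≤ qq τ := by
  refine Real.one_le_rpow ?_ (by norm_num)
  rw [Real.le_log_iff_exp_le (lt_of_lt_of_le (Real.exp_pos 1) hτ)]
  exact hτ

lemma qq_near {τ a : ℝ} (hτ : Real.exp 1 ≤ τ) (h1 : 86 / 100 * τ ≤ a) (h2 : a ≤ 114 / 100 * τ) :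
    Real.log a ^ (1 / 4 : ℝ) ≤ 2 * qq τ := by
  have hτ0 : 0 < τ := lt_of_lt_of_le (Real.exp_pos 1) hτ
  have h3 := (abs_le.1 (log_near hτ0 h1 h2)).2
  have h5 := (abs_le.1 (log_near hτ0 h1 h2)).1
  have h4 : 1 ≤ Real.log τ := (Real.le_log_iff_exp_le hτ0).2 hτ
  have e1 : (2 : ℝ) = (16 : ℝ) ^ (1 / 4 : ℝ) := by
    rw [show (16 : ℝ) = 2 ^ (4 : ℝ) by norm_num, ← Real.rpow_mul (by norm_num)]
    norm_num
  rw [qq, e1, ← Real.mul_rpow (by norm_num) (by linarith)]
  exact Real.rpow_le_rpow (by linarith) (by linarith) (by norm_num)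

/-- logarithmic derivative near height `τ` -/
structure Ld (b0 K τ1 : ℝ) : Prop where
  K1 : 1 ≤ K
  t4 : 8 ≤ τ1
  te : Real.exp 1 ≤ τ1
  b1 : 3 / 8 ≤ b0
  b2 : b0 < 1 / 2
  ld : ∀ τ : ℝ, τ1 ≤ τ → ∀ w : ℂ, b0 ≤ w.re → w.re ≤ τ / 8 → |w.im - τ| ≤ τ / 8 → fx w ≠ 0 ∧
    ‖logDeriv fx w - ((Real.log τ / 2 : ℝ) : ℂ)‖ ≤ K * qq τ

theorem exists_Ld {θ : ℝ} (hθ : θ < 1) (h : ∀ s : ℂ, θ < s.re → riemannZeta s ≠ 0) :
    ∃ b0 K τ1 : ℝ, Ld b0 K τ1 := by
  obtain ⟨κ, K, t1, hκ0, hκ1, hK1, ht4, hte, hld⟩ := fx_ld_zf hθ h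
  refine ⟨1 / 2 - κ, 2 * K + 1, 2 * t1, by linarith, by linarith, ?_, by linarith, by linarith, ?_⟩
  · have := Real.exp_pos 1
    linarith
  intro τ hτ w h1 h2 h3
  have he := Real.exp_pos 1
  have hτ0 : 0 < τ := by linarith
  have h4 := abs_le.1 h3
  obtain ⟨a1, a2⟩ := hld w (by linarith) (by
    rw [abs_of_nonneg (by linarith)]
    linarith) h1
  refine ⟨a1, ?_⟩
  have h5 := log_near hτ0 (a := w.im) (by linarith) (by linarith)
  have h6 := qq_near (τ := τ) (a := w.im) (by linarith) (by linarith) (by linarith)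
  have h7 := one_le_qq (τ := τ) (by linarith)
  calc ‖logDeriv fx w - ((Real.log τ / 2 : ℝ) : ℂ)‖
      = ‖(logDeriv fx w - ((1 / 2 * Real.log w.im : ℝ) : ℂ)) +
          (((Real.log w.im - Real.log τ) / 2 : ℝ) : ℂ)‖ := by
        congr 1
        push_cast
        ring
    _ ≤ K * (2 * qq τ) + 1 := by
        refine (norm_add_le _ _).trans (add_le_add (a2.trans (by gcongr)) ?_)
        rw [Complex.norm_real, Real.norm_eq_abs, abs_div]
        norm_num
        linarith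
    _ ≤ (2 * K + 1) * qq τ := by linarith

variable {b0 K τ1 : ℝ}

/-- comparison of sizes near height `τ` -/
lemma Ld.size (H : Ld b0 K τ1) {τ : ℝ} (hτ : τ1 ≤ τ) {w1 w2 : ℂ} (h1 : b0 ≤ w1.re)
    (h1' : w1.re ≤ τ / 8) (h1'' : |w1.im - τ| ≤ τ / 8) (h2 : b0 ≤ w2.re)
    (h2' : w2.re ≤ τ / 8) (h2'' : |w2.im - τ| ≤ τ / 8) :
    |Real.log ‖fx w1‖ - Real.log ‖fx w2‖ - Real.log τ / 2 * (w1.re - w2.re)| ≤
      K * qq τ * ‖w1 - w2‖ := by
  set d : ℂ := w1 - w2 with hd
  have hdre : d.re = w1.re - w2.re := by rw [hd, sub_re]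
  have hdim : d.im = w1.im - w2.im := by rw [hd, sub_im]
  have hreg : ∀ s ∈ Icc (0 : ℝ) 1, fx (w2 + s * d) ≠ 0 ∧
      ‖logDeriv fx (w2 + s * d) - ((Real.log τ / 2 : ℝ) : ℂ)‖ ≤ K * qq τ := by
    intro s hs
    have e1 : (w2 + s * d).re = w2.re + s * (w1.re - w2.re) := by
      rw [add_re, re_ofReal_mul, hdre]
    have e2 : (w2 + s * d).im = w2.im + s * (w1.im - w2.im) := by
      rw [add_im, im_ofReal_mul, hdim]
    obtain ⟨s0, s1⟩ := hs
    rw [abs_le] at h1'' h2''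
    refine H.ld τ hτ _ ?_ ?_ ?_
    · rw [e1]; nlinarith
    · rw [e1]; nlinarith
    · rw [e2, abs_le]
      constructor <;> nlinarith
  have hline : ∀ s : ℝ, HasDerivAt (fun s : ℝ => w2 + s * d) d s := by
    intro s
    have := ((hasDerivAt_id (s : ℂ)).comp_ofReal.mul_const d).const_add w2
    simpa using this
  have hder : ∀ s ∈ Icc (0 : ℝ) 1, HasDerivWithinAt
      (fun s : ℝ => Real.log ‖fx (w2 + s * d)‖ - Real.log τ / 2 * d.re * s)
      ((logDeriv fx (w2 + s * d) - ((Real.log τ / 2 : ℝ) : ℂ)) * d).re (Icc 0 1) s := by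
    intro s hs
    have h5 : HasDerivAt (fun s : ℝ => fx (w2 + s * d)) (deriv fx (w2 + s * d) * d) s :=
      HasDerivAt.comp (h₂ := fx) (h := fun s : ℝ => w2 + s * d) s
        (fx_diff (w2 + s * d)).hasDerivAt (hline s)
    have h6 := hasDerivAt_log_norm h5 (hreg s hs).1
    have h7 := h6.sub ((hasDerivAt_id s).const_mul (Real.log τ / 2 * d.re))
    refine (h7.congr_deriv ?_).hasDerivWithinAt
    have e9 : ((logDeriv fx (w2 + s * d) - ((Real.log τ / 2 : ℝ) : ℂ)) * d).re =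
        (logDeriv fx (w2 + s * d) * d).re - Real.log τ / 2 * d.re := by
      rw [sub_mul, Complex.sub_re (logDeriv fx (w2 + s * d) * d) (((Real.log τ / 2 : ℝ) : ℂ) * d),
        re_ofReal_mul]
    rw [e9, logDeriv_apply,
      show deriv fx (w2 + s * d) * d / fx (w2 + s * d) = deriv fx (w2 + s * d) / fx (w2 + s * d) * d by
        ring]
    ring
  have hKq : 0 ≤ K * qq τ := by
    have := (hreg 0 ⟨le_rfl, zero_le_one⟩).2
    exact (norm_nonneg _).trans this
  have hfin := (convex_Icc (0 : ℝ) 1).norm_image_sub_le_of_norm_hasDerivWithin_le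
    (C := K * qq τ * ‖d‖) hder (fun s hs => by
      rw [Real.norm_eq_abs]
      refine (abs_re_le_norm _).trans ?_
      rw [norm_mul]
      exact mul_le_mul (hreg s hs).2 le_rfl (norm_nonneg _) hKq)
    (left_mem_Icc.2 zero_le_one) (right_mem_Icc.2 zero_le_one)
  simp only [ofReal_one, ofReal_zero, one_mul, zero_mul, add_zero, mul_one, mul_zero, sub_zero,
    norm_one] at hfin
  have e5 : w2 + d = w1 := by rw [hd]; ring
  rw [e5, Real.norm_eq_abs, hdre] at hfin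
  have e6 : Real.log ‖fx w1‖ - Real.log ‖fx w2‖ - Real.log τ / 2 * (w1.re - w2.re) =
      Real.log ‖fx w1‖ - Real.log τ / 2 * (w1.re - w2.re) - Real.log ‖fx w2‖ := by ring
  rw [e6]
  exact hfin

/-- the class of `fx` with the line `Re = 3/4` -/
theorem cls34 : ∃ C : ℝ, 1 ≤ C ∧ Cls (3 / 4) C fx := by
  obtain ⟨K, hK1, hK⟩ := Pool.Agent.Helper82.JE.zeta_right' (η := 1 / 8) (by norm_num)
  have hcl := Pool.Agent.Helper82.JE.zeta_CL (η := 1 / 8) (K := K) (by positivity) hK1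
    (fun s hs => ⟨(hK s hs).2.2.1, (hK s hs).2.2.2⟩)
  obtain ⟨C, hC1, hC⟩ := CL.cls 1 2 (β := 1 / 2 + 1 / 8) (K := 4 * K) (δ := 1 / 4)
    (by norm_num) (by positivity) (by norm_num)
  have h := (hC _ _ _ _ _ _ _ hcl).1
  have e : (fun z : ℂ => fx (((1 / 2 : ℝ) : ℂ) + z - 1 / 2)) = fx := by
    funext z
    congr 1
    push_cast
    ring
  rw [e] at h
  have e2 : (1 / 2 + 1 / 8 + 1 / 4 / 2 : ℝ) = 3 / 4 := by norm_num
  rw [e2] at h
  exact ⟨C, hC1, h⟩

/-- a general bound in a strip from a bound on the edges with a Gaussian weight -/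
lemma strip_gen {F : ℂ → ℂ} {b M y0 : ℝ} (hb0 : 0 < b) (hF : Differentiable ℂ F)
    (hfin : ∃ (a : ℕ) (B : ℝ), ∀ z : ℂ, |z.re| ≤ b → ‖F z‖ ≤ Real.exp (B * (1 + |z.im|) ^ a))
    (hedge : ∀ w : ℂ, |w.re| = b → ‖F w‖ * Real.exp (b ^ 2 - (w.im - y0) ^ 2) ≤ M) {z : ℂ}
    (hz : |z.re| ≤ b) (hzy : z.im = y0) : ‖F z‖ ≤ M := by
  obtain ⟨a, B, hB⟩ := hfin
  set G : ℂ → ℂ := fun w => F w * cexp ((w - y0 * I) ^ 2) with hG
  have hGd : Differentiable ℂ G := hF.mul (by fun_prop)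
  have hnG : ∀ w : ℂ, ‖G w‖ = ‖F w‖ * Real.exp (w.re ^ 2 - (w.im - y0) ^ 2) := by
    intro w
    rw [hG]
    simp only
    rw [norm_mul, Complex.norm_exp]
    congr 2
    simp [sq]
  have hedge' : ∀ w : ℂ, |w.re| = b → ‖G w‖ ≤ M := by
    intro w hw
    rw [hnG]
    have e2 : w.re ^ 2 = b ^ 2 := by rw [← hw, sq_abs]
    rw [e2]
    exact hedge w hw
  have key : ‖G z‖ ≤ M := by
    refine PhragmenLindelof.vertical_strip (a := -b) (b := b) hGd.diffContOnCl ?_ ?_ ?_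
      (abs_le.1 hz).1 (abs_le.1 hz).2
    · have hc : 0 < Real.pi / (b - -b) := div_pos Real.pi_pos (by linarith)
      obtain ⟨B', hB'⟩ := poly_exp' a (max B 0) (Real.pi / (b - -b) / 2) (le_max_right _ _)
        (by linarith)
      refine ⟨Real.pi / (b - -b) / 2, by linarith, B', ?_⟩
      refine IsBigO.of_bound (Real.exp (b ^ 2)) ?_
      have hf2 : (re ⁻¹' Set.Ioo (-b) b) ∈ 𝓟 (re ⁻¹' Set.Ioo (-b) b) := mem_principal_self _
      filter_upwards [mem_inf_of_right hf2] with w hw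
      have hw3 : -b < w.re ∧ w.re < b := hw
      rw [Real.norm_of_nonneg (Real.exp_pos _).le, hnG]
      have h5 := hB w (abs_le.2 ⟨hw3.1.le, hw3.2.le⟩)
      have h6 : ‖F w‖ ≤ Real.exp (B' * Real.exp (Real.pi / (b - -b) / 2 * |w.im|)) := by
        refine h5.trans (Real.exp_le_exp.2 (le_trans ?_ (hB' _ (abs_nonneg _))))
        gcongr
        exact le_max_left _ _
      have h7 : Real.exp (w.re ^ 2 - (w.im - y0) ^ 2) ≤ Real.exp (b ^ 2) := by
        refine Real.exp_le_exp.2 ?_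
        have : w.re ^ 2 ≤ b ^ 2 := sq_le_sq' hw3.1.le hw3.2.le
        nlinarith [sq_nonneg (w.im - y0)]
      rw [mul_comm]
      exact mul_le_mul h7 h6 (norm_nonneg _) (Real.exp_pos _).le
    · intro w hw
      exact hedge' w (by rw [hw, abs_neg, abs_of_pos hb0])
    · intro w hw
      exact hedge' w (by rw [hw, abs_of_pos hb0])
  refine le_trans ?_ key
  rw [hnG, hzy, sub_self]
  have : (1 : ℝ) ≤ Real.exp (z.re ^ 2 - 0 ^ 2) := by
    refine Real.one_le_exp ?_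
    have := sq_nonneg z.re
    linarith
  exact le_mul_of_one_le_right (norm_nonneg _) this

/-- the convexity bound -/
theorem Ld.strip (H : Ld b0 K τ1) : ∃ K2 τ2 : ℝ, 1 ≤ K2 ∧ τ1 ≤ τ2 ∧ ∀ τ : ℝ, τ2 ≤ τ → ∀ z : ℂ,
    |z.re| ≤ b0 → z.im = τ → ‖fx z‖ ≤ Real.exp (K2 * qq τ ^ 2) * ‖fx ((b0 : ℂ) + τ * I)‖ := by
  obtain ⟨C, hC1, hC⟩ := cls34
  have hK1 := H.K1
  have hb1 := H.b1
  have hb2 := H.b2
  set E : ℝ := Real.exp (C ^ 2 / 4 + (3 / 4) ^ 2) with hE
  have hlE : Real.log E = C ^ 2 / 4 + (3 / 4) ^ 2 := by rw [hE, Real.log_exp]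
  refine ⟨K ^ 2 + 1, max τ1 (128 * (C + K + 2 + (C ^ 2 / 4 + 1))), by nlinarith, le_max_left _ _, ?_⟩
  intro τ hτ z hz hzi
  have hτ1 : τ1 ≤ τ := (le_max_left _ _).trans hτ
  have hτ2 : 128 * (C + K + 2 + (C ^ 2 / 4 + 1)) ≤ τ := (le_max_right _ _).trans hτ
  have hτe : Real.exp 1 ≤ τ := H.te.trans hτ1
  have hτ8 : 8 ≤ τ := H.t4.trans hτ1
  have hτ0 : 0 < τ := by linarith
  have hL1 : 1 ≤ Real.log τ := (Real.le_log_iff_exp_le hτ0).2 hτe
  have hLτ : Real.log τ ≤ τ := by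
    have := Real.log_le_sub_one_of_pos hτ0
    linarith
  have hq1 := one_le_qq hτe
  have hq4 := qq_four (τ := τ) (by linarith)
  have hqL : qq τ ≤ Real.log τ := by
    rw [← hq4]
    calc qq τ = qq τ * 1 := (mul_one _).symm
      _ ≤ qq τ * qq τ ^ 3 := by
          have : 1 ≤ qq τ ^ 3 := one_le_pow₀ hq1
          gcongr
      _ = qq τ ^ 4 := by ring
  set a : ℂ := (b0 : ℂ) + τ * I with ha
  have hare : a.re = b0 := by simp [ha]
  have haim : a.im = τ := by simp [ha]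
  have hane : fx a ≠ 0 := (H.ld τ hτ1 a (by rw [hare]) (by rw [hare]; linarith)
    (by rw [haim, sub_self, abs_zero]; linarith)).1
  have hap : 0 < ‖fx a‖ := norm_pos_iff.2 hane
  refine strip_gen (F := fx) (b := b0) (y0 := τ) (by linarith) fx_diff ?_ ?_ hz hzi
  · obtain ⟨a, B, hB⟩ := hC.fin
    exact ⟨a, B, fun z hz => hB z (by linarith)⟩
  · intro w hw
    have e1 : ‖fx w‖ = ‖fx ((b0 : ℂ) + w.im * I)‖ := by
      rcases le_total 0 w.re with h0 | h0
      · rw [abs_of_nonneg h0] at hw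
        rw [← hw, Complex.re_add_im]
      · rw [abs_of_nonpos h0] at hw
        rw [← hC.norm_refl b0 w.im, ← hw]
        congr 2
        push_cast
        rw [neg_neg, Complex.re_add_im]
    rw [e1]
    set w' : ℂ := (b0 : ℂ) + w.im * I with hw'
    have hw're : w'.re = b0 := by simp [hw']
    have hw'im : w'.im = w.im := by simp [hw']
    set v : ℝ := w.im - τ with hv
    have hb02 : b0 ^ 2 ≤ 1 := by nlinarith
    rcases le_or_gt |v| (τ / 8) with hc | hc
    · have hne' : fx w' ≠ 0 := (H.ld τ hτ1 w' (by rw [hw're]) (by rw [hw're]; linarith)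
        (by rw [hw'im]; exact hc)).1
      have h2 := (abs_le.1 (H.size hτ1 (w1 := w') (w2 := a) (by rw [hw're]) (by rw [hw're]; linarith)
        (by rw [hw'im]; exact hc) (by rw [hare]) (by rw [hare]; linarith)
        (by rw [haim, sub_self, abs_zero]; linarith))).2
      have h3 : ‖w' - a‖ = |v| := by
        have : w' - a = ((v : ℝ) : ℂ) * I := by
          rw [hw', ha, hv]; push_cast; ring
        rw [this, norm_mul, norm_I, mul_one, Complex.norm_real, Real.norm_eq_abs]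
      rw [h3, hw're, hare, sub_self, mul_zero, sub_zero] at h2
      calc ‖fx w'‖ * Real.exp (b0 ^ 2 - v ^ 2)
          = Real.exp (Real.log ‖fx w'‖) * Real.exp (b0 ^ 2 - v ^ 2) := by
            rw [Real.exp_log (norm_pos_iff.2 hne')]
        _ ≤ Real.exp (Real.log ‖fx a‖ + K * qq τ * |v|) * Real.exp (b0 ^ 2 - v ^ 2) := by
            gcongr
            linarith
        _ = Real.exp (K * qq τ * |v| + (b0 ^ 2 - v ^ 2)) * ‖fx a‖ := by
            rw [Real.exp_add, Real.exp_add, Real.exp_log hap]; ring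
        _ ≤ Real.exp ((K ^ 2 + 1) * qq τ ^ 2) * ‖fx a‖ := by
            gcongr
            have h4 := sq_nonneg (|v| - K * qq τ / 2)
            have h5 := sq_abs v
            have h6 : 1 ≤ qq τ ^ 2 := one_le_pow₀ hq1
            have h7 : 0 ≤ K ^ 2 * qq τ ^ 2 := by positivity
            nlinarith
    · have hvpos : 0 < |v| := by linarith
      have s1 : ‖fx w'‖ ≤ E * ‖fx (((3 / 4 : ℝ) : ℂ) + w.im * I)‖ := by
        have := hC.strip (z := w') (by rw [hw're, abs_of_nonneg (by linarith)]; linarith)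
        rwa [hw'im] at this
      have s2 := hC.line (x := 3 / 4) le_rfl w.im τ
      have s3 : ‖fx (((3 / 4 : ℝ) : ℂ) + τ * I)‖ ≤ Real.exp (Real.log τ + K * Real.log τ) * ‖fx a‖ := by
        set a' : ℂ := ((3 / 4 : ℝ) : ℂ) + τ * I with ha'
        have ha're : a'.re = 3 / 4 := by rw [ha']; simp
        have ha'im : a'.im = τ := by simp [ha']
        have hne' : fx a' ≠ 0 := hC.ne _ (by rw [ha're])
        have h2 := (abs_le.1 (H.size hτ1 (w1 := a') (w2 := a) (by rw [ha're]; linarith)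
          (by rw [ha're]; linarith) (by rw [ha'im, sub_self, abs_zero]; linarith)
          (by rw [hare]) (by rw [hare]; linarith)
          (by rw [haim, sub_self, abs_zero]; linarith))).2
        have h3 : ‖a' - a‖ ≤ 1 := by
          have : a' - a = ((3 / 4 - b0 : ℝ) : ℂ) := by
            rw [ha', ha]; push_cast; ring
          rw [this, Complex.norm_real, Real.norm_eq_abs, abs_of_nonneg (by linarith)]
          linarith
        rw [ha're, hare] at h2
        have h4 : K * qq τ * ‖a' - a‖ ≤ K * Real.log τ := by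
          calc K * qq τ * ‖a' - a‖ ≤ K * Real.log τ * 1 := by gcongr
            _ = _ := mul_one _
        have h5 : Real.log τ / 2 * (3 / 4 - b0) ≤ Real.log τ := by nlinarith
        calc ‖fx a'‖ = Real.exp (Real.log ‖fx a'‖) := (Real.exp_log (norm_pos_iff.2 hne')).symm
          _ ≤ Real.exp (Real.log τ + K * Real.log τ + Real.log ‖fx a‖) :=
              Real.exp_le_exp.2 (by linarith)
          _ = _ := by rw [Real.exp_add, Real.exp_log hap]
      have s4 : ‖fx w'‖ ≤ E * ((Real.exp (Real.log τ + K * Real.log τ) * ‖fx a‖) *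
          Real.exp (C * |v|)) := by
        refine s1.trans (mul_le_mul_of_nonneg_left (s2.trans ?_) (Real.exp_pos _).le)
        exact mul_le_mul_of_nonneg_right s3 (Real.exp_pos _).le
      have hv2 : |v| ^ 2 = v ^ 2 := sq_abs v
      calc ‖fx w'‖ * Real.exp (b0 ^ 2 - v ^ 2)
          ≤ (E * ((Real.exp (Real.log τ + K * Real.log τ) * ‖fx a‖) *
            Real.exp (C * |v|))) * Real.exp (b0 ^ 2 - v ^ 2) := by gcongr
        _ = Real.exp ((C ^ 2 / 4 + (3 / 4) ^ 2) + (Real.log τ + K * Real.log τ) + C * |v| +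
            (b0 ^ 2 - v ^ 2)) * ‖fx a‖ := by
            rw [hE]; simp only [Real.exp_add]; ring
        _ ≤ Real.exp ((K ^ 2 + 1) * qq τ ^ 2) * ‖fx a‖ := by
            gcongr
            have h4 : 0 ≤ (K ^ 2 + 1) * qq τ ^ 2 := by positivity
            refine le_trans ?_ h4
            rw [← hv2]
            have h5 : C * |v| ≤ |v| ^ 2 / 2 := by nlinarith
            have h6 : (τ / 8) ^ 2 ≤ |v| ^ 2 := by gcongr
            have h7 : K * Real.log τ ≤ K * τ := by gcongr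
            have h8 : (C + K + 2 + (C ^ 2 / 4 + 1)) * τ ≤ (τ / 8) ^ 2 / 2 := by nlinarith
            have h9 : C ^ 2 / 4 + 1 ≤ (C ^ 2 / 4 + 1) * τ := by
              have : 0 ≤ C ^ 2 / 4 + 1 := by positivity
              nlinarith
            have h10 : 0 ≤ C * τ := by positivity
            nlinarith

end Pool.Agent.Helper68.ZF
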